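import Mathlib

/-!
# Indivisibility of graphs with an induced edge-partition property
-/

set_option autoImplicit false

namespace Pool.Agent.H73Ind

open Cardinal

universe u v w

/-- For all colourings of the edges with colours in `Γ` and of the non-edges with colours in `Δ`
there is an induced copy of `H` whose edges have one colour and whose non-edges have one colour. -/
def Arrows {V : Type u} {W : Type v} (Γ : Type u) (Δ : Type w) (G : SimpleGraph V)
    (H : SimpleGraph W) : Prop :=
  ∀ (c : V → V → Γ) (g : V → V → Δ), (∀ x y, c x y = c y x) → (∀ x y, g x y = g y x) →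
    ∃ (φ : H ↪g G) (c1 : Γ) (c0 : Δ), (∀ x y, H.Adj x y → c (φ x) (φ y) = c1) ∧
      ∀ x y, x ≠ y → ¬H.Adj x y → g (φ x) (φ y) = c0

variable {V : Type u} {W : Type v} {Γ : Type u} {Δ : Type w}

lemma const_of_conn {H : SimpleGraph W} (hc : H.Preconnected) {I : Type*} (k : W → I)
    (hk : ∀ x y, H.Adj x y → k x = k y) (x y : W) : k x = k y := by
  obtain ⟨p⟩ := hc x y
  induction p with
  | nil => rfl
  | cons h _ ih => exact (hk _ _ h).trans ih

theorem fibres {G : SimpleGraph V} {H : SimpleGraph W} (hconn : H.Preconnected) [Nonempty W]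
    [Infinite Γ] [Nonempty Δ] {I : Type*} {F : SimpleGraph I} (d : I → I → Γ)
    (hd : ∀ i j, d i j = d j i)
    (hno : ∀ (n : Γ) (k : W → I), ∃ x y, H.Adj x y ∧ ¬(F.Adj (k x) (k y) ∧ d (k x) (k y) = n))
    (f : V → I) (hf : ∀ x y, G.Adj x y → f x = f y ∨ F.Adj (f x) (f y)) (h : Arrows Γ Δ G H) :
    ∃ i, Arrows Γ Δ (G.induce {v | f v = i}) H := by
  classical
  by_contra hcon
  have hbad : ∀ i, ∃ (c : V → V → Γ) (g : V → V → Δ), (∀ x y, c x y = c y x) ∧
      (∀ x y, g x y = g y x) ∧ ∀ (φ : H ↪g G) (c1 : Γ) (c0 : Δ), (∀ x, f (φ x) = i) →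
        (∀ x y, H.Adj x y → c (φ x) (φ y) = c1) →
        ¬ ∀ x y, x ≠ y → ¬H.Adj x y → g (φ x) (φ y) = c0 := by
    intro i
    have h1 : ¬ Arrows Γ Δ (G.induce {v | f v = i}) H := fun h2 => hcon ⟨i, h2⟩
    unfold Arrows at h1
    push Not at h1
    obtain ⟨c, g, hc, hg, hcg⟩ := h1
    have γ0 : Γ := Classical.arbitrary Γ
    have δ0 : Δ := Classical.arbitrary Δ
    refine ⟨fun x y => if hx : f x = i then (if hy : f y = i then c ⟨x, hx⟩ ⟨y, hy⟩ else γ0) else γ0,
      fun x y => if hx : f x = i then (if hy : f y = i then g ⟨x, hx⟩ ⟨y, hy⟩ else δ0) else δ0,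
      ?_, ?_, ?_⟩
    · intro x y
      by_cases hx : f x = i <;> by_cases hy : f y = i <;> simp [hx, hy, hc ⟨x, _⟩ ⟨y, _⟩]
    · intro x y
      by_cases hx : f x = i <;> by_cases hy : f y = i <;> simp [hx, hy, hg ⟨x, _⟩ ⟨y, _⟩]
    · intro φ c1 c0 hφ h2 h3
      let ψ : H ↪g G.induce {v | f v = i} :=
        { toFun := fun x => ⟨φ x, hφ x⟩
          inj' := fun x y hxy => φ.injective (congrArg Subtype.val hxy)
          map_rel_iff' := by
            intro x y
            exact φ.map_rel_iff }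
      obtain ⟨x, y, hxy, hnadj, hne⟩ := hcg ψ c1 c0 (by
        intro x y hxy
        have h4 := h2 x y hxy
        simp only [dif_pos (hφ x), dif_pos (hφ y)] at h4
        exact h4)
      apply hne
      have h4 := h3 x y hxy hnadj
      simp only [dif_pos (hφ x), dif_pos (hφ y)] at h4
      exact h4
  choose C D hC hD hCD using hbad
  obtain ⟨ee⟩ : Nonempty (Γ ⊕ Γ ≃ Γ) := by
    rw [← Cardinal.eq]
    simp
  have δ0 : Δ := Classical.arbitrary Δ
  obtain ⟨φ, c1, c0, h1, h0⟩ := h
    (fun x y => if f x = f y then ee (Sum.inl (C (f x) x y)) else ee (Sum.inr (d (f x) (f y))))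
    (fun x y => if f x = f y then D (f x) x y else δ0)
    (by
      intro x y
      by_cases hxy : f x = f y
      · simp only [hxy, if_true, hC (f y) x y]
      · simp only [if_neg hxy, if_neg (Ne.symm hxy), hd (f x) (f y)])
    (by
      intro x y
      by_cases hxy : f x = f y
      · simp only [hxy, if_true, hD (f y) x y]
      · simp only [if_neg hxy, if_neg (Ne.symm hxy)])
  rcases hcc : ee.symm c1 with a | n
  · -- all edges lie in fibres
    have hc1 : c1 = ee (Sum.inl a) := by rw [← hcc, Equiv.apply_symm_apply]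
    have hfib : ∀ x y, H.Adj x y → f (φ x) = f (φ y) := by
      intro x y hxy
      by_contra hne
      have h2 := h1 x y hxy
      simp only [if_neg hne] at h2
      rw [hc1] at h2
      have h3 := ee.injective h2
      simp at h3
    have hall := const_of_conn hconn (fun x => f (φ x)) hfib
    obtain ⟨x0⟩ := ‹Nonempty W›
    refine hCD (f (φ x0)) φ a c0 (fun x => hall x x0) ?_ ?_
    · intro x y hxy
      have h2 := h1 x y hxy
      simp only [if_pos (hfib x y hxy)] at h2
      rw [hc1] at h2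
      have h3 := Sum.inl.inj (ee.injective h2)
      have h4 : f (φ x) = f (φ x0) := hall x x0
      rwa [h4] at h3
    · intro x y hxy hnadj
      have h2 := h0 x y hxy hnadj
      have h4 : f (φ x) = f (φ x0) := hall x x0
      have h5 : f (φ x) = f (φ y) := hall x y
      simp only [if_pos h5] at h2
      rwa [h4] at h2
  · -- a homomorphism into one colour class of `F`
    have hc1 : c1 = ee (Sum.inr n) := by rw [← hcc, Equiv.apply_symm_apply]
    obtain ⟨x, y, hxy, hnot⟩ := hno n (fun x => f (φ x))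
    apply hnot
    have h2 := h1 x y hxy
    by_cases hne : f (φ x) = f (φ y)
    · simp only [if_pos hne] at h2
      rw [hc1] at h2
      have h3 := ee.injective h2
      simp at h3
    · simp only [if_neg hne] at h2
      rw [hc1] at h2
      exact ⟨(hf _ _ (φ.map_rel_iff.2 hxy)).resolve_left hne, Sum.inr.inj (ee.injective h2)⟩

/-- a colouring of the pairs of at most `2 ^ #Γ` points with bipartite colour classes -/
lemma exists_d {I : Type u} [Infinite Γ] (hI : #I ≤ 2 ^ #Γ) :
    ∃ (d : I → I → Γ) (b : I → Γ → Bool), (∀ i j, d i j = d j i) ∧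
      ∀ i j, i ≠ j → b i (d i j) ≠ b j (d i j) := by
  classical
  obtain ⟨k⟩ : Nonempty (I ↪ (Γ → Bool)) := by
    rw [← Cardinal.le_def]
    simpa using hI
  refine ⟨fun i j => if hx : ∃ n, k i n ≠ k j n then Classical.choose hx else
    Classical.arbitrary Γ, k, ?_, ?_⟩
  · intro i j
    simp only [ne_comm]
  · intro i j hij
    have h1 : ∃ n, k i n ≠ k j n := by
      by_contra h2
      push Not at h2
      exact hij (k.injective (funext h2))
    simp only [dif_pos h1]
    exact Classical.choose_spec h1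

/-- at most `2 ^ #Γ` parts -/
theorem parts {G : SimpleGraph V} {H : SimpleGraph W} (hconn : H.Preconnected)
    (hbip : ¬ H.Colorable 2) [Infinite Γ] [Nonempty Δ] {I : Type u} (hI : #I ≤ 2 ^ #Γ)
    (f : V → I) (h : Arrows Γ Δ G H) : ∃ i, Arrows Γ Δ (G.induce {v | f v = i}) H := by
  obtain ⟨d, b, hd, hb⟩ := exists_d (Γ := Γ) hI
  have hW : Nonempty W := by
    by_contra hW
    rw [not_nonempty_iff] at hW
    exact hbip ⟨SimpleGraph.Coloring.mk (fun x => (hW.false x).elim) (fun {x} => (hW.false x).elim)⟩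
  refine fibres (F := ⊤) hconn d hd ?_ f (fun x y _ => em (f x = f y)) h
  intro n k
  by_contra hcon
  push Not at hcon
  apply hbip
  have hB : H.Coloring Bool :=
    SimpleGraph.Coloring.mk (fun x => b (k x) n) (fun {x y} hxy => by
      obtain ⟨h1, h2⟩ := hcon x y hxy
      have h3 := hb (k x) (k y) h1
      rwa [h2] at h3)
  have := hB.colorable
  simpa using this

/-- `H` has two different vertices -/
lemma two_vertices {H : SimpleGraph W} (hbip : ¬ H.Colorable 2) : ∃ x y : W, x ≠ y := by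
  by_contra hcon
  push Not at hcon
  apply hbip
  exact ⟨SimpleGraph.Coloring.mk (fun _ => 0) (fun {x y} hxy => absurd (hcon x y) hxy.ne)⟩

/-- a graph with the partition property has more than `2 ^ #Γ` vertices -/
theorem card_lt {G : SimpleGraph V} {H : SimpleGraph W} (hconn : H.Preconnected)
    (hbip : ¬ H.Colorable 2) [Infinite Γ] [Nonempty Δ] (h : Arrows Γ Δ G H) : 2 ^ #Γ < #V := by
  by_contra hcon
  push Not at hcon
  obtain ⟨i, hi⟩ := parts hconn hbip hcon id h
  obtain ⟨φ, -⟩ := hi (fun _ _ => Classical.arbitrary Γ) (fun _ _ => Classical.arbitrary Δ)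
    (fun _ _ => rfl) (fun _ _ => rfl)
  obtain ⟨x, y, hxy⟩ := two_vertices hbip
  apply hxy
  apply φ.injective
  apply Subtype.ext
  have h1 : (φ x).1 = i := (φ x).2
  have h2 : (φ y).1 = i := (φ y).2
  rw [h1, h2]

/-- cofinality -/
theorem cof {G : SimpleGraph V} {H : SimpleGraph W} (hconn : H.Preconnected)
    (hbip : ¬ H.Colorable 2) [Infinite Γ] [Nonempty Δ] (h : Arrows Γ Δ G H)
    (hmin : ∀ S : Set V, #S < #V → ¬ Arrows Γ Δ (G.induce S) H) : 2 ^ #Γ < (#V).ord.cof := by
  classical
  by_contra hcon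
  push Not at hcon
  obtain ⟨φ⟩ : Nonempty (V ≃ (#V).ord.ToType) := by
    rw [← Cardinal.eq, Cardinal.mk_toType, Cardinal.card_ord]
  obtain ⟨s, hs, hs'⟩ := Order.exists_cof_eq (#V).ord.ToType
  have hcard : #s ≤ 2 ^ #Γ := by
    rw [hs', ← Ordinal.cof_type, Ordinal.type_toType]
    exact hcon
  have hinf : ℵ₀ ≤ #V :=
    ((Cardinal.aleph0_le_mk Γ).trans (Cardinal.cantor #Γ).le).trans (card_lt hconn hbip h).le
  have hex : ∀ v : V, ∃ t : s, φ v ≤ t.1 := by
    intro v
    obtain ⟨t, ht, ht'⟩ := hs (φ v)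
    exact ⟨⟨t, ht⟩, ht'⟩
  choose f hf using hex
  obtain ⟨i, hi⟩ := parts hconn hbip hcard f h
  refine hmin _ ?_ hi
  have h1 : #{v | f v = i} ≤ #(Set.Iic i.1) := by
    refine Cardinal.mk_le_of_injective (f := fun v : {v | f v = i} =>
      (⟨φ v.1, by
        have h2 := hf v.1
        have h3 : f v.1 = i := v.2
        rw [h3] at h2
        exact h2⟩ : Set.Iic i.1)) ?_
    intro a b hab
    apply Subtype.ext
    apply φ.injective
    exact congrArg Subtype.val hab
  refine h1.trans_lt ?_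
  have h2 : (Set.Iic i.1 : Set (#V).ord.ToType) = insert i.1 (Set.Iio i.1) := by
    rw [Set.insert_eq, Set.union_comm, ← Set.Iio_union_right]
  rw [h2]
  have h3 : #(Set.Iio i.1 : Set (#V).ord.ToType) < #V := by
    simpa using Cardinal.mk_Iio_lt i.1 (by simp)
  refine Cardinal.mk_insert_le.trans_lt ?_
  exact Cardinal.add_lt_of_lt hinf h3 (Cardinal.one_lt_aleph0.trans_le hinf)

/-- the random graph -/
def IsRandomGraph (U : SimpleGraph ℕ) : Prop :=
  ∀ A B : Finset ℕ, Disjoint A B →
    {v | v ∉ A ∧ v ∉ B ∧ (∀ a ∈ A, U.Adj v a) ∧ ∀ b ∈ B, ¬U.Adj v b}.Infinite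

lemma exists_adj_all {U : SimpleGraph ℕ} (hU : IsRandomGraph U) (s : Finset ℕ) :
    ∃ v, ∀ a ∈ s, U.Adj v a := by
  obtain ⟨v, -, -, h, -⟩ := (hU s ∅ (Finset.disjoint_empty_right s)).nonempty
  exact ⟨v, h⟩

lemma exists_clique {U : SimpleGraph ℕ} (hU : IsRandomGraph U) :
    ∃ q : ℕ → ℕ, ∀ m n, m < n → U.Adj (q m) (q n) := by
  obtain ⟨q, -, hq⟩ := exists_seq_of_forall_finset_exists (fun _ : ℕ => True) U.Adj
    (fun s _ => by
      obtain ⟨v, hv⟩ := exists_adj_all hU s
      exact ⟨v, trivial, fun x hx => (hv x hx).symm⟩)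
  exact ⟨q, hq⟩

lemma preconnected {U : SimpleGraph ℕ} (hU : IsRandomGraph U) : U.Preconnected := by
  intro x y
  obtain ⟨v, hv⟩ := exists_adj_all hU {x, y}
  exact (hv x (by simp)).symm.reachable.trans (hv y (by simp)).reachable

lemma not_bip {U : SimpleGraph ℕ} (hU : IsRandomGraph U) : ¬ U.Colorable 2 := by
  rintro ⟨c⟩
  obtain ⟨q, hq⟩ := exists_clique hU
  have h1 := c.valid (hq 0 1 (by omega))
  have h2 := c.valid (hq 1 2 (by omega))
  have h3 := c.valid (hq 0 2 (by omega))
  omega

/-- the random graph and maps to a graph whose edges can be coloured without a monochromatic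
infinite clique -/
theorem fibres_random {U : SimpleGraph ℕ} (hU : IsRandomGraph U) {G : SimpleGraph V}
    [Infinite Γ] [Nonempty Δ] {I : Type*} {F : SimpleGraph I} (d : I → I → Γ)
    (hd : ∀ i j, d i j = d j i)
    (hno : ¬∃ (n : Γ) (q : ℕ → I), ∀ m k, m < k → F.Adj (q m) (q k) ∧ d (q m) (q k) = n)
    (f : V → I) (hf : ∀ x y, G.Adj x y → f x = f y ∨ F.Adj (f x) (f y)) (h : Arrows Γ Δ G U) :
    ∃ i, Arrows Γ Δ (G.induce {v | f v = i}) U := by
  refine fibres (preconnected hU) d hd ?_ f hf h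
  intro n k
  by_contra hcon
  push Not at hcon
  obtain ⟨q, hq⟩ := exists_clique hU
  exact hno ⟨n, fun m => k (q m), fun m l hml => hcon _ _ (hq m l hml)⟩

end Pool.Agent.H73Ind
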